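import Mathlib
import Pool.Agent.N870.H.Stm
import Pool.Agent.N454.EC.CNT2

/-!
# H/LOWH: the lower bound for all moments over coprime pairs

From `Pool.Agent.N870.EC.low_gen2` for the forms `FM _ (fv α β a (q a + b))`, `q` large.
Seat helper574.
-/

set_option autoImplicit false

namespace Pool.Agent.N574.H

open Finset Pool.Agent.W262.RK Pool.Agent.W307.RT

open Pool.Agent.W307.SE (SN SN_nonneg)

open Pool.Agent.N870.EC (cnt Per S_CNT2 low_gen2)

open Pool.Agent.N870.H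

/-- the number of the residues does not change under `(x, y) ↦ (x, q x + y)` -/
lemma cnt_shear (Z : ℕ → ℕ → Prop) (q p : ℕ) (hp : 0 < p) (hZ : Per Z p) :
    cnt (fun x y => Z x (q * x + y)) p = cnt Z p := by
  classical
  obtain ⟨φ, hφ⟩ : ∃ φ : ℕ × ℕ → ℕ × ℕ, φ = fun t => (t.1, (q * t.1 + t.2) % p) := ⟨_, rfl⟩
  have hinj : Set.InjOn φ ((range p ×ˢ range p : Finset (ℕ × ℕ)) : Set (ℕ × ℕ)) := by
    intro a ha b hb hab
    rw [mem_coe, mem_product, mem_range, mem_range] at ha hb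
    rw [hφ] at hab
    simp only [Prod.mk.injEq] at hab
    obtain ⟨h1, h2⟩ := hab
    rw [h1] at h2
    have h3 : a.2 ≡ b.2 [MOD p] := Nat.ModEq.add_left_cancel' (q * b.1) h2
    have h4 : a.2 % p = b.2 % p := h3
    rw [Nat.mod_eq_of_lt ha.2, Nat.mod_eq_of_lt hb.2] at h4
    exact Prod.ext h1 h4
  have himg : (range p ×ˢ range p).image φ = range p ×ˢ range p := by
    apply eq_of_subset_of_card_le
    · intro t ht
      rw [mem_image] at ht
      obtain ⟨a, ha, rfl⟩ := ht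
      rw [mem_product, mem_range, mem_range] at ha ⊢
      rw [hφ]
      exact ⟨ha.1, Nat.mod_lt _ hp⟩
    · rw [card_image_of_injOn hinj]
  unfold cnt
  have h1 : (range p ×ˢ range p).filter (fun t : ℕ × ℕ => Z t.1 t.2) =
      ((range p ×ˢ range p).filter (fun t : ℕ × ℕ => Z t.1 (q * t.1 + t.2))).image φ := by
    ext t
    rw [mem_filter, mem_image]
    constructor
    · rintro ⟨h2, h3⟩
      rw [← himg, mem_image] at h2
      obtain ⟨a, ha, rfl⟩ := h2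
      refine ⟨a, mem_filter.2 ⟨ha, ?_⟩, rfl⟩
      rw [hφ] at h3
      exact (hZ _ _ _ _ (Nat.ModEq.refl _) (Nat.mod_modEq _ _)).1 h3
    · rintro ⟨a, ha, rfl⟩
      rw [mem_filter] at ha
      constructor
      · rw [← himg]
        exact mem_image_of_mem _ ha.1
      · rw [hφ]
        exact (hZ _ _ _ _ (Nat.ModEq.refl _) (Nat.mod_modEq _ _)).2 ha.2
  rw [h1, card_image_of_injOn (hinj.mono (coe_subset.2 (filter_subset _ _)))]

/-- the trivial bound -/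
lemma cnt_le (Z : ℕ → ℕ → Prop) (p : ℕ) : cnt Z p ≤ p * p := by
  classical
  unfold cnt
  refine (card_filter_le _ _).trans ?_
  rw [card_product, card_range]

lemma fm_cong {J : Type} [Fintype J] [DecidableEq J] (cls : J → Fin 4) (a : Fin 3 → ℤ) (μ : J → ℕ)
    (α β : J → ℤ) (p : ℕ) {u v u' v' : ℤ} (h1 : u ≡ u' [ZMOD p]) (h2 : v ≡ v' [ZMOD p])
    (k : Fin 3) :
    FM cls a μ (fv α β u v) k ≡ FM cls a μ (fv α β u' v') k [ZMOD p] := by
  rw [← ZMod.intCast_eq_intCast_iff] at h1 h2 ⊢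
  unfold FM fv
  push_cast
  rw [h1, h2]

lemma fv_ne {J : Type} (α β : J → ℤ) (hα : ∀ j, α j ≠ 0) (q : ℕ)
    (hq : ∀ j, (α j).natAbs < q) (a b : ℕ) (ha : 1 ≤ a) (j : J) :
    fv α β (a : ℤ) ((q : ℤ) * a + b) j ≠ 0 := by
  unfold fv
  intro h
  rcases eq_or_ne (β j) 0 with h0 | h0
  · rw [h0, zero_mul, add_zero] at h
    rcases mul_eq_zero.1 h with h1 | h1
    · exact hα j h1
    · have : a = 0 := by exact_mod_cast h1
      omega
  · have h1 : β j * ((q : ℤ) * a + b) = - (α j * a) := by linarith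
    have h2 := congrArg Int.natAbs h1
    rw [Int.natAbs_mul, Int.natAbs_neg, Int.natAbs_mul, Int.natAbs_natCast] at h2
    have h3 : ((q : ℤ) * a + b).natAbs = q * a + b := by
      have : ((q : ℤ) * a + b) = ((q * a + b : ℕ) : ℤ) := by push_cast; ring
      rw [this, Int.natAbs_natCast]
    rw [h3] at h2
    have h4 : 1 ≤ (β j).natAbs := Int.natAbs_pos.2 h0
    have h5 : (α j).natAbs * a < q * a := Nat.mul_lt_mul_of_pos_right (hq j) ha
    have h6 : 1 * (q * a + b) ≤ (β j).natAbs * (q * a + b) := Nat.mul_le_mul_right _ h4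
    omega

lemma fv_size {J : Type} [Fintype J] (α β : J → ℤ) (q : ℕ) : ∃ D : ℕ, ∀ L a b : ℕ, 2 ≤ L →
    a ≤ L → b ≤ L → ∀ j, (fv α β (a : ℤ) ((q : ℤ) * a + b) j).natAbs ≤ L ^ D := by
  obtain ⟨D, hD⟩ : ∃ D : ℕ, D = ∑ j, ((α j).natAbs + (β j).natAbs * (q + 1)) := ⟨_, rfl⟩
  refine ⟨D + 1, fun L a b hL ha hb j => ?_⟩
  unfold fv
  have h1 : (α j * (a : ℤ) + β j * ((q : ℤ) * a + b)).natAbs ≤
      (α j).natAbs * a + (β j).natAbs * (q * a + b) := by
    refine (Int.natAbs_add_le _ _).trans ?_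
    rw [Int.natAbs_mul, Int.natAbs_mul, Int.natAbs_natCast]
    have : ((q : ℤ) * a + b) = ((q * a + b : ℕ) : ℤ) := by push_cast; ring
    rw [this, Int.natAbs_natCast]
  have h2 : (α j).natAbs * a ≤ (α j).natAbs * L := Nat.mul_le_mul_left _ ha
  have h3 : (β j).natAbs * (q * a + b) ≤ (β j).natAbs * ((q + 1) * L) := by
    apply Nat.mul_le_mul_left
    nlinarith
  have h4 : (α j).natAbs + (β j).natAbs * (q + 1) ≤ D := by
    rw [hD]
    exact single_le_sum (f := fun j => (α j).natAbs + (β j).natAbs * (q + 1))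
      (fun _ _ => Nat.zero_le _) (mem_univ j)
  have h5 : D ≤ L ^ D := (Nat.lt_pow_self (by omega)).le
  calc _ ≤ (α j).natAbs * a + (β j).natAbs * (q * a + b) := h1
    _ ≤ (α j).natAbs * L + (β j).natAbs * ((q + 1) * L) := by omega
    _ = ((α j).natAbs + (β j).natAbs * (q + 1)) * L := by ring
    _ ≤ D * L := Nat.mul_le_mul_right _ h4
    _ ≤ L ^ D * L := Nat.mul_le_mul_right _ h5
    _ = L ^ (D + 1) := (pow_succ _ _).symm

lemma fm_size {J : Type} [Fintype J] [DecidableEq J] (cls : J → Fin 4) (aa : Fin 3 → ℤ)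
    (μ : J → ℕ) (α β : J → ℤ) (q : ℕ) (k : Fin 3) : ∃ E : ℕ, ∀ L a b : ℕ, 2 ≤ L →
    a ≤ L → b ≤ L → (FM cls aa μ (fv α β (a : ℤ) ((q : ℤ) * a + b)) k).natAbs ≤ L ^ E := by
  obtain ⟨D, hD⟩ := fv_size α β q
  refine ⟨(aa k).natAbs + D * ∑ l ∈ fc cls k, μ l, fun L a b hL ha hb => ?_⟩
  unfold FM
  rw [Int.natAbs_mul, pow_add, pow_mul]
  apply Nat.mul_le_mul
  · exact (Nat.lt_pow_self (by omega)).le
  · have h1 : (∏ l ∈ fc cls k, fv α β (a : ℤ) ((q : ℤ) * a + b) l ^ μ l).natAbs =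
        ∏ l ∈ fc cls k, (fv α β (a : ℤ) ((q : ℤ) * a + b) l).natAbs ^ μ l := by
      rw [← Int.natAbsHom_apply, map_prod]
      refine prod_congr rfl fun l _ => ?_
      rw [map_pow, Int.natAbsHom_apply]
    rw [h1, ← prod_pow_eq_pow_sum]
    exact prod_le_prod' fun l _ => Nat.pow_le_pow_left (hD L a b hL ha hb l) _

lemma mer_sum (h2 : S_MERK) {J : Type} [Fintype J] [DecidableEq J] (S : Finset J) (κ : J → ℤ)
    (hκ : ∀ j, κ j ≠ 0) (z : ℕ) (hz : 2 ≤ z) : ∃ C : ℝ, 0 ≤ C ∧ ∀ y : ℕ, z < y →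
    |∑ p ∈ PS z y, ((S.filter (fun j => jacobiSym (κ j) p = 1)).card : ℝ) / (p : ℝ) -
      (∑ j ∈ S, (if IsSquare (κ j) then (1 : ℝ) else 1 / 2)) * Real.log (Real.log y)| ≤ C := by
  have h := fun j => h2 (κ j) (hκ j) z hz
  choose C hC using h
  refine ⟨∑ j ∈ S, |C j|, sum_nonneg fun _ _ => abs_nonneg _, fun y hy => ?_⟩
  have h1 : ∑ p ∈ PS z y, ((S.filter (fun j => jacobiSym (κ j) p = 1)).card : ℝ) / (p : ℝ) =
      ∑ j ∈ S, ∑ p ∈ (PS z y).filter (fun p => jacobiSym (κ j) p = 1), 1 / (p : ℝ) := by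
    have e1 : ∀ p ∈ PS z y, ((S.filter (fun j => jacobiSym (κ j) p = 1)).card : ℝ) / (p : ℝ) =
        ∑ j ∈ S, if jacobiSym (κ j) p = 1 then 1 / (p : ℝ) else 0 := by
      intro p _
      rw [← sum_filter, sum_const, nsmul_eq_mul]
      ring
    rw [sum_congr rfl e1, sum_comm]
    refine sum_congr rfl fun j _ => ?_
    rw [sum_filter]
  rw [h1, sum_mul, ← sum_sub_distrib]
  refine (abs_sum_le_sum_abs _ _).trans (sum_le_sum fun j _ => ?_)
  exact (hC j y hy).trans (le_abs_self _)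

lemma sum_inv_sq (z y : ℕ) (hz : 2 ≤ z) : ∑ p ∈ PS z y, 1 / (p : ℝ) ^ 2 ≤ 1 := by
  rcases le_or_gt z y with h | h
  · calc ∑ p ∈ PS z y, 1 / (p : ℝ) ^ 2 ≤ ∑ p ∈ Ioc z y, ((p : ℝ) ^ 2)⁻¹ := by
          unfold PS
          simp only [one_div]
          exact sum_le_sum_of_subset_of_nonneg (filter_subset _ _) fun _ _ _ => by positivity
      _ ≤ (z : ℝ)⁻¹ - (y : ℝ)⁻¹ := sum_Ioc_inv_sq_le_sub (by omega) h
      _ ≤ (z : ℝ)⁻¹ := by
          have : (0 : ℝ) ≤ (y : ℝ)⁻¹ := by positivity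
          linarith
      _ ≤ 1 := by
          have : (1 : ℝ) ≤ z := by exact_mod_cast (by omega : 1 ≤ z)
          exact inv_le_one_of_one_le₀ this
  · unfold PS
    rw [Ioc_eq_empty (by omega), filter_empty, sum_empty]
    exact zero_le_one

/-- comparison of the sums -/
lemma sum_cmp (g N : ℕ → ℝ) (D : ℝ) (hD0 : 0 ≤ D) (hD : ∀ p : ℕ, p.Prime →
    |g p / (p : ℝ) ^ 2 - N p / (p : ℝ)| ≤ D * (1 / (p : ℝ) ^ 2)) (z y : ℕ) (hz : 2 ≤ z) :
    |∑ p ∈ PS z y, g p / (p : ℝ) ^ 2 - ∑ p ∈ PS z y, N p / (p : ℝ)| ≤ D := by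
  rw [← sum_sub_distrib]
  refine (abs_sum_le_sum_abs _ _).trans ?_
  calc ∑ p ∈ PS z y, |g p / (p : ℝ) ^ 2 - N p / (p : ℝ)| ≤
        ∑ p ∈ PS z y, D * (1 / (p : ℝ) ^ 2) := sum_le_sum fun p hp => by
          unfold PS at hp
          exact hD p (mem_filter.1 hp).2
    _ = D * ∑ p ∈ PS z y, 1 / (p : ℝ) ^ 2 := by rw [mul_sum]
    _ ≤ D * 1 := mul_le_mul_of_nonneg_left (sum_inv_sq z y hz) hD0
    _ = D := mul_one D

/-- the local bound -/
lemma loc_cmp (g : ℕ → ℕ) (N : ℕ → ℕ) (e M p0 : ℕ) (he : e ≤ 1) (hN : ∀ p, N p ≤ M)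
    (hg : ∀ p : ℕ, p.Prime → p0 ≤ p → g p = (p - 1) * N p + e)
    (hg0 : ∀ p : ℕ, g p ≤ p * p) (p : ℕ) (hp : p.Prime) :
    |(g p : ℝ) / (p : ℝ) ^ 2 - (N p : ℝ) / (p : ℝ)| ≤
      (((M : ℝ) + 1) * ((p0 : ℝ) + 1) ^ 2) * (1 / (p : ℝ) ^ 2) := by
  have hp0 : (0 : ℝ) < p := by exact_mod_cast hp.pos
  have hp1 : 1 ≤ p := hp.one_lt.le
  have e1 : (g p : ℝ) / (p : ℝ) ^ 2 - (N p : ℝ) / (p : ℝ) = ((g p : ℝ) - N p * p) / (p : ℝ) ^ 2 := by
    field_simp
  rw [e1, abs_div, abs_of_pos (show (0 : ℝ) < (p : ℝ) ^ 2 by positivity), div_eq_mul_one_div]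
  refine mul_le_mul_of_nonneg_right ?_ (by positivity)
  have hM : (N p : ℝ) ≤ M := by exact_mod_cast hN p
  have hN0 : (0 : ℝ) ≤ N p := Nat.cast_nonneg _
  have hq : (1 : ℝ) ≤ ((p0 : ℝ) + 1) ^ 2 := by
    have : (0 : ℝ) ≤ p0 := Nat.cast_nonneg _
    nlinarith
  rcases le_or_gt p0 p with h | h
  · rw [hg p hp h]
    push_cast [hp1]
    have he1 : (e : ℝ) ≤ 1 := by exact_mod_cast he
    have he0 : (0 : ℝ) ≤ e := Nat.cast_nonneg _
    have e2 : ((p : ℝ) - 1) * N p + e - N p * p = e - N p := by ring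
    rw [e2]
    have h3 : |(e : ℝ) - N p| ≤ M + 1 := by
      rw [abs_le]
      constructor <;> linarith
    calc |(e : ℝ) - N p| ≤ (M + 1) * 1 := by rw [mul_one]; exact h3
      _ ≤ _ := mul_le_mul_of_nonneg_left hq (by linarith)
  · have h1 : (g p : ℝ) ≤ (p : ℝ) ^ 2 := by
      have := hg0 p
      rw [sq]
      exact_mod_cast this
    have h2 : (p : ℝ) ≤ (p0 : ℝ) + 1 := by
      have : (p : ℝ) ≤ p0 := by exact_mod_cast h.le
      linarith
    have h3 : (p : ℝ) ^ 2 ≤ ((p0 : ℝ) + 1) ^ 2 := pow_le_pow_left₀ hp0.le h2 2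
    have h4 : (N p : ℝ) * p ≤ M * ((p0 : ℝ) + 1) ^ 2 := by
      calc (N p : ℝ) * p ≤ M * ((p0 : ℝ) + 1) := mul_le_mul hM h2 hp0.le (by linarith)
        _ ≤ M * ((p0 : ℝ) + 1) ^ 2 := by
            apply mul_le_mul_of_nonneg_left _ (by linarith)
            have : (0 : ℝ) ≤ p0 := Nat.cast_nonneg _
            nlinarith
    have h5 : (0 : ℝ) ≤ g p := Nat.cast_nonneg _
    have h6 : (0 : ℝ) ≤ N p * p := by positivity
    have h7 : (0 : ℝ) ≤ M * ((p0 : ℝ) + 1) ^ 2 := by positivity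
    rw [abs_le]
    constructor <;> nlinarith

lemma kap_ne {J : Type} [Fintype J] [DecidableEq J] (cls : J → Fin 4) (a : Fin 3 → ℤ)
    (μ : J → ℕ) (α β : J → ℤ) (hF : Fm cls a μ α β) (j : J) : kapM cls a μ α β j ≠ 0 := by
  unfold kapM
  have h1 : sgM (cls j) ≠ 0 := by
    unfold sgM
    split_ifs <;> norm_num
  refine mul_ne_zero h1 (mul_ne_zero (hF.a0 _) (prod_ne_zero_iff.2 fun l hl => pow_ne_zero _ ?_))
  apply hF.res
  rintro rfl
  unfold fc at hl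
  rw [mem_filter] at hl
  have h2 := hl.2
  unfold cpM at h2
  split_ifs at h2 with h3
  · rw [h3] at h2
    exact absurd h2 (by decide)
  · exact h3 h2

lemma nc_sum {J : Type} [Fintype J] [DecidableEq J] (cls : J → Fin 4) (hc : ∀ j, cls j ≠ 3) :
    ((univ.filter (fun j => cls j ≠ 2)).card : ℝ) = nc cls 0 + nc cls 1 := by
  unfold nc
  have h : univ.filter (fun j => cls j ≠ 2) =
      (univ.filter (fun j => cls j = 0)) ∪ (univ.filter (fun j => cls j = 1)) := by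
    ext j
    rw [mem_union, mem_filter, mem_filter, mem_filter]
    have h1 := hc j
    generalize cls j = c at h1
    fin_cases c <;> simp_all
  rw [h, card_union_of_disjoint]
  · push_cast
    rfl
  · rw [disjoint_filter]
    intro j _ h1 h2
    rw [h1] at h2
    exact absurd h2 (by decide)

lemma sc_sum {J : Type} [Fintype J] [DecidableEq J] (cls : J → Fin 4) (a : Fin 3 → ℤ)
    (μ : J → ℕ) (α β : J → ℤ) :
    ∑ j ∈ univ.filter (fun j => cls j = 2),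
      (if IsSquare (kapM cls a μ α β j) then (1 : ℝ) else 1 / 2) =
    (nc cls 2 + sc cls a μ α β 2) / 2 := by
  have h1 : ∀ j ∈ univ.filter (fun j => cls j = 2),
      (if IsSquare (kapM cls a μ α β j) then (1 : ℝ) else 1 / 2) =
      1 / 2 + (if IsSquare (kapM cls a μ α β j) then (1 / 2 : ℝ) else 0) := by
    intro j _
    split_ifs <;> norm_num
  rw [sum_congr rfl h1, sum_add_distrib, sum_const, nsmul_eq_mul, ← sum_filter, sum_const,
    nsmul_eq_mul, filter_filter]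
  unfold nc sc
  have h3 : ∀ x y : ℝ, x * (1 / 2) + y * (1 / 2) = (x + y) / 2 := fun x y => by ring
  exact (h3 _ _).trans (by congr!)

theorem t_LOWH (h1 : S_CNTF) (h2 : S_MERK) : S_LOWH := by
  intro J _ _ _ cls aa μ α β hF s ε hs hε
  obtain ⟨p0, hp0⟩ := h1 J cls aa μ α β hF
  obtain ⟨q, hq⟩ : ∃ q : ℕ, ∀ j, (α j).natAbs < q := ⟨(∑ j, (α j).natAbs) + 1, fun j => by
    have := single_le_sum (f := fun j => (α j).natAbs) (fun _ _ => Nat.zero_le _) (mem_univ j)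
    omega⟩
  obtain ⟨P, hP⟩ : ∃ P : ℕ → ℕ → ℤ,
    P = fun a b : ℕ => FM cls aa μ (fv α β (a : ℤ) ((q : ℤ) * a + b)) 0 := ⟨_, rfl⟩
  obtain ⟨Q, hQ⟩ : ∃ Q : ℕ → ℕ → ℤ,
    Q = fun a b : ℕ => FM cls aa μ (fv α β (a : ℤ) ((q : ℤ) * a + b)) 1 := ⟨_, rfl⟩
  have hfv := fv_ne α β hF.al q hq
  have hne : ∀ (a b : ℕ), 1 ≤ a → ∀ k : Fin 3,
      FM cls aa μ (fv α β (a : ℤ) ((q : ℤ) * a + b)) k ≠ 0 := by
    intro a b ha k
    unfold FM
    exact mul_ne_zero (hF.a0 k) (prod_ne_zero_iff.2 fun l _ => pow_ne_zero _ (hfv a b ha l))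
  have hcast : ∀ a b : ℕ, ((q * a + b : ℕ) : ℤ) = (q : ℤ) * a + b := fun a b => by push_cast; ring
  -- the counts
  have hG : ∀ p : ℕ, p.Prime → cnt (fun a b => (p : ℤ) ∣ P a b - Q a b ∧
      jacobiSym (P a b) p = 1) p =
      cnt (fun x y => (p : ℤ) ∣ FM cls aa μ (fv α β x y) 0 - FM cls aa μ (fv α β x y) 1 ∧
        jacobiSym (FM cls aa μ (fv α β x y) 0) p = 1) p := by
    intro p hp
    rw [← cnt_shear (fun x y : ℕ => (p : ℤ) ∣ FM cls aa μ (fv α β x y) 0 -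
      FM cls aa μ (fv α β x y) 1 ∧ jacobiSym (FM cls aa μ (fv α β x y) 0) p = 1) q p hp.pos]
    · rw [hP, hQ]
      simp only [hcast]
    · intro a b a' b' e1 e2
      have e3 := (Int.natCast_modEq_iff.2 e1)
      have e4 := (Int.natCast_modEq_iff.2 e2)
      have k1 := fm_cong cls aa μ α β p e3 e4 0
      have k2 := fm_cong cls aa μ α β p e3 e4 1
      have k3 := k1.sub k2
      refine and_congr ?_ ?_
      · rw [← Int.modEq_zero_iff_dvd, ← Int.modEq_zero_iff_dvd]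
        exact ⟨fun k => k3.symm.trans k, fun k => k3.trans k⟩
      · rw [jacobiSym.mod_left' k1]
  have hB : ∀ p : ℕ, p.Prime → cnt (fun a b => (p : ℤ) ∣ P a b * Q a b) p =
      cnt (fun x y => (p : ℤ) ∣ FM cls aa μ (fv α β x y) 0 * FM cls aa μ (fv α β x y) 1) p := by
    intro p hp
    rw [← cnt_shear (fun x y : ℕ => (p : ℤ) ∣ FM cls aa μ (fv α β x y) 0 *
      FM cls aa μ (fv α β x y) 1) q p hp.pos]
    · rw [hP, hQ]
      simp only [hcast]
    · intro a b a' b' e1 e2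
      have e3 := (Int.natCast_modEq_iff.2 e1)
      have e4 := (Int.natCast_modEq_iff.2 e2)
      have k1 := fm_cong cls aa μ α β p e3 e4 0
      have k2 := fm_cong cls aa μ α β p e3 e4 1
      have k3 := k1.mul k2
      show (p : ℤ) ∣ _ ↔ (p : ℤ) ∣ _
      rw [← Int.modEq_zero_iff_dvd, ← Int.modEq_zero_iff_dvd]
      exact ⟨fun k => k3.symm.trans k, fun k => k3.trans k⟩
  obtain ⟨cg, hcg⟩ : ∃ cg : ℕ → ℕ, cg = fun p => if p.Prime then cnt (fun a b =>
    (p : ℤ) ∣ P a b - Q a b ∧ jacobiSym (P a b) p = 1) p else 0 := ⟨_, rfl⟩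
  obtain ⟨cb, hcb⟩ : ∃ cb : ℕ → ℕ, cb = fun p => if p.Prime then cnt (fun a b =>
    (p : ℤ) ∣ P a b * Q a b) p else 0 := ⟨_, rfl⟩
  have hcgp : ∀ p : ℕ, p.Prime → cg p = cnt (fun a b =>
    (p : ℤ) ∣ P a b - Q a b ∧ jacobiSym (P a b) p = 1) p := fun p hp => by
      rw [hcg]
      simp only [if_pos hp]
  have hcbp : ∀ p : ℕ, p.Prime → cb p = cnt (fun a b => (p : ℤ) ∣ P a b * Q a b) p :=
    fun p hp => by
      rw [hcb]
      simp only [if_pos hp]
  have hcgn : ∀ p : ℕ, ¬ p.Prime → cg p = 0 := fun p hp => by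
      rw [hcg]
      simp only [if_neg hp]
  have hcbn : ∀ p : ℕ, ¬ p.Prime → cb p = 0 := fun p hp => by
      rw [hcb]
      simp only [if_neg hp]
  have hcg0 : ∀ p, cg p ≤ p * p := by
    intro p
    by_cases hp : p.Prime
    · rw [hcgp p hp]
      exact cnt_le _ _
    · rw [hcgn p hp]
      exact Nat.zero_le _
  have hcb0 : ∀ p, cb p ≤ p * p := by
    intro p
    by_cases hp : p.Prime
    · rw [hcbp p hp]
      exact cnt_le _ _
    · rw [hcbn p hp]
      exact Nat.zero_le _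
  obtain ⟨NG, hNG⟩ : ∃ NG : ℕ → ℕ, NG = fun p => ((univ.filter (fun j => cls j = 2)).filter
    (fun j => jacobiSym (kapM cls aa μ α β j) p = 1)).card := ⟨_, rfl⟩
  obtain ⟨NB, hNB⟩ : ∃ NB : ℕ → ℕ, NB = fun p => ((univ.filter (fun j => cls j ≠ 2)).filter
    (fun _ => jacobiSym 1 p = 1)).card := ⟨_, rfl⟩
  have hNG1 : ∀ p, NG p ≤ Fintype.card J := by
    intro p
    rw [hNG]
    exact card_le_univ _
  have hNB1 : ∀ p, NB p ≤ Fintype.card J := by
    intro p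
    rw [hNB]
    exact card_le_univ _
  have hcg1 : ∀ p : ℕ, p.Prime → p0 ≤ p → cg p = (p - 1) * NG p + 0 := by
    intro p hp hpp
    rw [hcgp p hp, hG p hp, (hp0 p hp hpp).1, hNG, add_zero]
    simp only [filter_filter]
  have hcb1 : ∀ p : ℕ, p.Prime → p0 ≤ p → cb p = (p - 1) * NB p + 1 := by
    intro p hp hpp
    rw [hcbp p hp, hB p hp, (hp0 p hp hpp).2, hNB]
    simp only [jacobiSym.one_left, filter_true]
  have hbd : ∀ (g N : ℕ → ℕ) (e : ℕ), e ≤ 1 → (∀ p, N p ≤ Fintype.card J) →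
      (∀ p : ℕ, p.Prime → p0 ≤ p → g p = (p - 1) * N p + e) → (∀ p, g p ≤ p * p) →
      (∀ p : ℕ, ¬ p.Prime → g p = 0) → ∀ p, g p ≤ (p0 + Fintype.card J + 2) * p := by
    intro g N e he hN hg hg0 hgn p
    by_cases hp : p.Prime
    · rcases le_or_gt p0 p with h | h
      · rw [hg p hp h]
        have k1 : (p - 1) * N p ≤ p * Fintype.card J := Nat.mul_le_mul (by omega) (hN p)
        have k2 := hp.pos
        nlinarith [Nat.zero_le (p0 * p)]
      · have k1 : p * p ≤ p0 * p := Nat.mul_le_mul_right _ h.le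
        have k2 := hg0 p
        nlinarith [Nat.zero_le (Fintype.card J * p)]
    · rw [hgn p hp]
      exact Nat.zero_le _
  -- the sums over primes
  obtain ⟨D, hD⟩ : ∃ D : ℝ, D = (((Fintype.card J : ℕ) : ℝ) + 1) * ((p0 : ℝ) + 1) ^ 2 := ⟨_, rfl⟩
  have hD0 : 0 ≤ D := by rw [hD]; positivity
  have hmgG : ∀ z : ℕ, 11 ≤ z → ∃ C : ℝ, 0 ≤ C ∧ ∀ w : ℕ, z < w → 3 ≤ w →
      ((nc cls 2 + sc cls aa μ α β 2) / 2) * Real.log (Real.log w) - C ≤
        ∑ p ∈ PS z w, (cg p : ℝ) / (p : ℝ) ^ 2 ∧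
      ∑ p ∈ PS z w, (cg p : ℝ) / (p : ℝ) ^ 2 ≤
        ((nc cls 2 + sc cls aa μ α β 2) / 2) * Real.log (Real.log w) + C := by
    intro z hz
    obtain ⟨C, hC0, hC⟩ := mer_sum h2 (univ.filter (fun j => cls j = 2))
      (kapM cls aa μ α β) (kap_ne cls aa μ α β hF) z (by omega)
    refine ⟨C + D, by positivity, fun w hw _ => ?_⟩
    have k1 := hC w hw
    rw [sc_sum] at k1
    have k2 := sum_cmp (fun p => (cg p : ℝ)) (fun p => (NG p : ℝ)) D hD0 (fun p hp => by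
      rw [hD]
      exact loc_cmp cg NG 0 _ p0 (by norm_num) hNG1 hcg1 hcg0 p hp) z w (by omega)
    rw [hNG] at k2
    rw [abs_le] at k1 k2
    constructor <;> linarith [k1.1, k1.2, k2.1, k2.2]
  have hmbG : ∀ z : ℕ, 11 ≤ z → ∃ C : ℝ, 0 ≤ C ∧ ∀ w : ℕ, z < w → 3 ≤ w →
      ∑ p ∈ PS z w, (cb p : ℝ) / (p : ℝ) ^ 2 ≤
        (nc cls 0 + nc cls 1) * Real.log (Real.log w) + C := by
    intro z hz
    obtain ⟨C, hC0, hC⟩ := mer_sum h2 (univ.filter (fun j => cls j ≠ 2))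
      (fun _ => 1) (fun _ => one_ne_zero) z (by omega)
    refine ⟨C + D, by positivity, fun w hw _ => ?_⟩
    have k1 := hC w hw
    have k0 : ∑ j ∈ univ.filter (fun j => cls j ≠ 2), (if IsSquare (1 : ℤ) then (1 : ℝ) else
        1 / 2) = nc cls 0 + nc cls 1 := by
      have hsq : IsSquare (1 : ℤ) := ⟨1, rfl⟩
      rw [if_pos hsq, sum_const, nsmul_eq_mul, mul_one, nc_sum cls hF.cl]
    rw [k0] at k1
    have k2 := sum_cmp (fun p => (cb p : ℝ)) (fun p => (NB p : ℝ)) D hD0 (fun p hp => by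
      rw [hD]
      exact loc_cmp cb NB 1 _ p0 le_rfl hNB1 hcb1 hcb0 p hp) z w (by omega)
    rw [hNB] at k2
    rw [abs_le] at k1 k2
    linarith [k1.1, k1.2, k2.1, k2.2]
  -- the degree is positive
  have hdeg : ∃ j, cls j = 0 ∨ cls j = 1 := by
    by_contra hcon
    push Not at hcon
    have hc2 : ∀ j, cls j = 2 := by
      intro j
      have e1 := hcon j
      have e2 := hF.cl j
      generalize cls j = c at e1 e2
      fin_cases c <;> simp_all
    have e0 : ∀ f : J → ℤ, FM cls aa μ f 0 = aa 0 := by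
      intro f
      unfold FM fc
      have : univ.filter (fun l => cls l = Fin.castSucc (0 : Fin 3)) = (∅ : Finset J) := by
        rw [filter_eq_empty_iff]
        intro j _ hj
        exact (hcon j).1 hj
      rw [this, prod_empty, mul_one]
    have e1 : ∀ f : J → ℤ, FM cls aa μ f 1 = aa 1 := by
      intro f
      unfold FM fc
      have : univ.filter (fun l => cls l = Fin.castSucc (1 : Fin 3)) = (∅ : Finset J) := by
        rw [filter_eq_empty_iff]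
        intro j _ hj
        exact (hcon j).2 hj
      rw [this, prod_empty, mul_one]
    have r0 := hF.rel 0 0
    have r1 := hF.rel ((1 : ℕ) : ℤ) ((q : ℤ) * ((1 : ℕ) : ℤ) + ((0 : ℕ) : ℤ))
    rw [e0, e1] at r0 r1
    have e2 := hne 1 0 le_rfl 2
    rw [← r1, r0] at e2
    apply e2
    obtain ⟨j⟩ := (inferInstance : Nonempty J)
    unfold FM
    apply mul_eq_zero_of_right
    apply prod_eq_zero (i := j)
    · unfold fc
      rw [mem_filter]
      exact ⟨mem_univ _, hc2 j⟩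
    · unfold fv
      rw [mul_zero, mul_zero, add_zero]
      exact zero_pow (by have := hF.mu j; omega)
  have hH : ∀ p a b : ℕ, p ∣ a → p ∣ b → (p : ℤ) ∣ P a b * Q a b := by
    intro p a b ha hb
    have ha' : (p : ℤ) ∣ a := Int.natCast_dvd_natCast.2 ha
    have hb' : (p : ℤ) ∣ b := Int.natCast_dvd_natCast.2 hb
    have hf : ∀ j, (p : ℤ) ∣ fv α β (a : ℤ) ((q : ℤ) * a + b) j := fun j => by
      unfold fv
      exact dvd_add (ha'.mul_left _) ((dvd_add (ha'.mul_left _) hb').mul_left _)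
    have hk : ∀ (k : Fin 3) (j : J), cls j = k.castSucc →
        (p : ℤ) ∣ FM cls aa μ (fv α β (a : ℤ) ((q : ℤ) * a + b)) k := by
      intro k j hj
      unfold FM
      apply Dvd.dvd.mul_left
      refine ((hf j).pow (by have := hF.mu j; omega)).trans (dvd_prod_of_mem _ ?_)
      unfold fc
      rw [mem_filter]
      exact ⟨mem_univ _, hj⟩
    obtain ⟨j, hj | hj⟩ := hdeg
    · rw [hP]
      exact (hk 0 j hj).mul_right _
    · rw [hQ]
      exact (hk 1 j hj).mul_left _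
  have hcong : ∀ p a b a' b' : ℕ, a ≡ a' [MOD p] → b ≡ b' [MOD p] →
      (P a b ≡ P a' b' [ZMOD p]) ∧ (Q a b ≡ Q a' b' [ZMOD p]) := by
    intro p a b a' b' e1 e2
    have e3 := (Int.natCast_modEq_iff.2 e1)
    have e4 := (Int.natCast_modEq_iff.2 e2)
    have e5 := (e3.mul_left (q : ℤ)).add e4
    rw [hP, hQ]
    exact ⟨fm_cong cls aa μ α β p e3 e5 0, fm_cong cls aa μ α β p e3 e5 1⟩
  have hsize : ∃ E : ℕ, ∀ L a b : ℕ, 2 ≤ L → a ≤ L → b ≤ L → (P a b * Q a b).natAbs ≤ L ^ E := by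
    obtain ⟨E0, hE0⟩ := fm_size cls aa μ α β q 0
    obtain ⟨E1, hE1⟩ := fm_size cls aa μ α β q 1
    refine ⟨E0 + E1, fun L a b hL ha hb => ?_⟩
    rw [Int.natAbs_mul, pow_add, hP, hQ]
    exact Nat.mul_le_mul (hE0 L a b hL ha hb) (hE1 L a b hL ha hb)
  have hPQ : ∀ a b : ℕ, 1 ≤ b → a.Coprime b → a % 6 = 1 → 3 * b < a →
      P a b ≠ 0 ∧ Q a b ≠ 0 ∧ P a b ≠ Q a b := by
    intro a b _ _ _ hab
    have ha : 1 ≤ a := by omega
    rw [hP, hQ]
    refine ⟨hne a b ha 0, hne a b ha 1, fun h => hne a b ha 2 ?_⟩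
    rw [← hF.rel]
    exact sub_eq_zero.2 h
  have hncle : ∀ c, nc cls c ≤ Fintype.card J := by
    intro c
    unfold nc
    exact_mod_cast card_le_univ _
  have hscle : sc cls aa μ α β 2 ≤ Fintype.card J := by
    unfold sc
    exact_mod_cast card_le_univ _
  have hnc0 : ∀ c, 0 ≤ nc cls c := fun c => by unfold nc; exact Nat.cast_nonneg _
  have hsc0 : 0 ≤ sc cls aa μ α β 2 := by unfold sc; exact Nat.cast_nonneg _
  obtain ⟨m, X0, hm1, hX⟩ := low_gen2 Pool.Agent.N454.EC.t_CNT2 (p0 + Fintype.card J + 2) P Q cg cb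
    ((nc cls 2 + sc cls aa μ α β 2) / 2) (nc cls 0 + nc cls 1)
    (by have := hnc0 2; positivity)
    (by
      have k1 := hncle 2
      push_cast
      have : (0 : ℝ) ≤ p0 := Nat.cast_nonneg _
      linarith)
    (by have := hnc0 0; have := hnc0 1; positivity) (by omega) hPQ hH hcong hsize
    (fun p hp _ => (hcgp p hp).symm) (fun p hp _ => (hcbp p hp).symm)
    (hbd cg NG 0 (by norm_num) hNG1 hcg1 hcg0 hcgn) (hbd cb NB 1 le_rfl hNB1 hcb1 hcb0 hcbn)
    hmgG hmbG s ε hs hε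
  refine ⟨(q + 1) * (2 * m + 2), X0 + 1, fun X hXX => ?_⟩
  obtain ⟨T, hTs, hT, hsum⟩ := hX X (by omega)
  refine hsum.trans ?_
  obtain ⟨φ, hφ⟩ : ∃ φ : ℕ × ℕ → ℤ × ℤ, φ = fun t => ((((1 + m * X) + m * t.1 : ℕ) : ℤ),
    (q : ℤ) * (((1 + m * X) + m * t.1 : ℕ) : ℤ) + (t.2 : ℤ)) := ⟨_, rfl⟩
  obtain ⟨g, hg⟩ : ∃ g : ℤ × ℤ → ℝ, g = fun t => (SN (FM cls aa μ (fv α β t.1 t.2) 0)
    (FM cls aa μ (fv α β t.1 t.2) 1)) ^ s := ⟨_, rfl⟩
  have e1 : ∑ t ∈ T, (SN (P ((1 + m * X) + m * t.1) t.2) (Q ((1 + m * X) + m * t.1) t.2)) ^ s =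
      ∑ t ∈ T, g (φ t) := by
    rw [hg, hφ, hP, hQ]
  have hinj : Set.InjOn φ (T : Set (ℕ × ℕ)) := by
    intro t _ t' _ htt
    rw [hφ] at htt
    simp only [Prod.mk.injEq] at htt
    obtain ⟨k1, k2⟩ := htt
    rw [k1] at k2
    have k3 : t.2 = t'.2 := by
      have := add_left_cancel k2
      exact_mod_cast this
    have k4 : (1 + m * X) + m * t.1 = (1 + m * X) + m * t'.1 := by exact_mod_cast k1
    have k5 : m * t.1 = m * t'.1 := by omega
    exact Prod.ext (Nat.eq_of_mul_eq_mul_left (by omega) k5) k3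
  classical
  rw [e1, ← sum_image (f := g) hinj]
  have e2 : ∀ t : ℤ × ℤ, 0 ≤ g t := fun t => by
    rw [hg]
    exact Real.rpow_nonneg (SN_nonneg _ _) _
  have e3 : ∀ t ∈ T.image φ, t.1.natAbs ≤ (q + 1) * (2 * m + 2) * X ∧
      t.2.natAbs ≤ (q + 1) * (2 * m + 2) * X ∧ IsCoprime t.1 t.2 ∧
      ∀ j, fv α β t.1 t.2 j ≠ 0 := by
    intro t ht
    rw [mem_image] at ht
    obtain ⟨t, ht, rfl⟩ := ht
    have hs1 := hTs ht
    rw [mem_product, mem_Icc, mem_Icc] at hs1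
    obtain ⟨⟨u1, u2⟩, v1, v2⟩ := hs1
    obtain ⟨c1, _, _⟩ := hT t ht
    have w0 : m * t.1 ≤ m * X := Nat.mul_le_mul_left m u2
    have w1 : (1 + m * X) + m * t.1 ≤ (2 * m + 1) * X := by nlinarith
    have w2 : (2 * m + 1) * X + X = (2 * m + 2) * X := by ring
    have w3 : (q + 1) * (2 * m + 2) * X = q * ((2 * m + 2) * X) + (2 * m + 2) * X := by ring
    have w4 : q * ((1 + m * X) + m * t.1) ≤ q * ((2 * m + 2) * X) :=
      Nat.mul_le_mul_left q (by omega)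
    have w5 : 0 ≤ q * ((2 * m + 2) * X) := Nat.zero_le _
    rw [hφ]
    refine ⟨?_, ?_, ?_, hfv _ _ (by omega)⟩
    · show ((((1 + m * X) + m * t.1 : ℕ) : ℤ)).natAbs ≤ _
      rw [Int.natAbs_natCast]
      omega
    · show ((q : ℤ) * (((1 + m * X) + m * t.1 : ℕ) : ℤ) + (t.2 : ℤ)).natAbs ≤ _
      rw [← hcast, Int.natAbs_natCast]
      omega
    · show IsCoprime ((((1 + m * X) + m * t.1 : ℕ) : ℤ))
        ((q : ℤ) * (((1 + m * X) + m * t.1 : ℕ) : ℤ) + (t.2 : ℤ))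
      have h := (Nat.isCoprime_iff_coprime.2 c1).add_mul_right_right (q : ℤ)
      rw [add_comm (t.2 : ℤ)] at h
      exact h
  subst hg
  refine sum_le_sum_of_subset_of_nonneg ?_ fun t _ _ => e2 t
  intro t ht
  obtain ⟨k1, k2, k3, k4⟩ := e3 t ht
  rw [mem_filter, mem_product, mem_Icc, mem_Icc]
  refine ⟨⟨?_, ?_⟩, k3, k4⟩
  · have : |t.1| ≤ (((q + 1) * (2 * m + 2) * X : ℕ) : ℤ) := by
      rw [Int.abs_eq_natAbs]
      exact_mod_cast k1
    rw [abs_le] at this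
    push_cast at this ⊢
    exact this
  · have : |t.2| ≤ (((q + 1) * (2 * m + 2) * X : ℕ) : ℤ) := by
      rw [Int.abs_eq_natAbs]
      exact_mod_cast k2
    rw [abs_le] at this
    push_cast at this ⊢
    exact this

end Pool.Agent.N574.H
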